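import Pool.Agent.KS6_8.HG.Prod
import Pool.Graph.R_seed8.Y349.OC.Final

/-!
# Orbit counts on `n`-sets: `Sym(Ω)` on `q`-subsets and `Sym(Ω) Wr S_k` in the power action

For every `q ≥ 2` and every `k ≥ 2` (with `Ω × Ω` for `k = 2`) the number of orbits on `n`-sets is
determined up to a factor `1 + O(n ^ (-c))`.
-/

set_option autoImplicit false

namespace Pool.Agent.Results.MP_cfcaf3_co.AllDegrees

/-- `f_n(G)`: the number of orbits of a group `G`, acting on a set `X`, on the set of all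
`n`-element subsets of `X`. -/
noncomputable def orbitCount (G X : Type) [Group G] [MulAction G X] [DecidableEq X] (n : ℕ) : ℕ :=
  Nat.card (MulAction.orbitRel.Quotient G (Set.powersetCard X n))

/-- The wreath product `Sym(Ω) Wr S₂` in its power (product) action on `Ω × Ω`: the group of
permutations of `Ω × Ω` generated by the permutations `(a, b) ↦ (g a, h b)`, for `g, h ∈ Sym(Ω)`,
and the swap `(a, b) ↦ (b, a)` of the two coordinates. -/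
def wreathPower (Ω : Type) : Subgroup (Equiv.Perm (Ω × Ω)) :=
  Subgroup.closure
    ({σ | ∃ g h : Equiv.Perm Ω, σ = Equiv.prodCongr g h} ∪ {Equiv.prodComm Ω Ω})

/-- The wreath product `Sym(Ω) Wr S_k` in its power (product) action on `Ω ^ k`: the group of all
permutations `x ↦ (i ↦ g_i (x (τ i)))` of `Fin k → Ω`, for `g_1, …, g_k ∈ Sym(Ω)` and
`τ ∈ Sym(k)`. -/
def wreathPowerK (k : ℕ) (Ω : Type) : Subgroup (Equiv.Perm (Fin k → Ω)) where
  carrier := {σ | ∃ (g : Fin k → Equiv.Perm Ω) (τ : Equiv.Perm (Fin k)),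
    ∀ (x : Fin k → Ω) (i : Fin k), σ x i = g i (x (τ i))}
  one_mem' := (Pool.Agent.KS6_8.HG.wreathPow k Ω).one_mem'
  mul_mem' := (Pool.Agent.KS6_8.HG.wreathPow k Ω).mul_mem'
  inv_mem' := (Pool.Agent.KS6_8.HG.wreathPow k Ω).inv_mem'

/-- The correction exponent for `q`-subsets: `(q - 1) w / 2`, with the extra summand `w ^ 2 / 4`
for `q = 2`. -/
noncomputable def corr (q : ℕ) (w : ℝ) : ℝ :=
  ((q : ℝ) - 1) * w / 2 + if q = 2 then w ^ 2 / 4 else 0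

/-- **Orbit counts on `n`-sets.** Here `f_n` is the number of orbits on `n`-sets, `B_m` is the
`m`-th Bell number, and `w ≥ 0` is the solution of `w * exp w = x`.

(1) (`Sym(Ω) Wr S₂` on `Ω × Ω`, `x = n`)
`f_n = (1 + O(n ^ (-1/10))) * B_n ^ 2 / (2 n!) * exp (- w ^ 2 / 2)`.

(2) (`Sym(Ω) Wr S_k` on `Ω ^ k`, `k ≥ 3`, `x = n`)
`f_n = (1 + O(n ^ (-1/10))) * B_n ^ k / (k! n!)`.

(3) (`Sym(Ω)` on the `q`-element subsets of `Ω`, `q ≥ 2`, `x = q n`)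
`f_n = (1 + O(n ^ (-1/(5q)))) * B_{qn} / ((q!) ^ n n!) * exp (- corr q w)`.

In each case there is also a main term without Bell numbers. -/
theorem result (Ω : Type) [DecidableEq Ω] [Infinite Ω] [Countable Ω] :
    (∀ x : ℝ, 0 ≤ x → ∃! w : ℝ, 0 ≤ w ∧ w * Real.exp w = x) ∧
    (∃ C : ℝ, ∀ n : ℕ, 1 ≤ n → ∀ w : ℝ, 0 ≤ w → w * Real.exp w = n →
      |(orbitCount (wreathPower Ω) (Ω × Ω) n : ℝ) /
          ((Nat.bell n : ℝ) ^ 2 / (2 * (n.factorial : ℝ)) * Real.exp (-(w ^ 2 / 2))) - 1| ≤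
        C * (n : ℝ) ^ (-(1 / 10) : ℝ) ∧
      |(orbitCount (wreathPower Ω) (Ω × Ω) n : ℝ) /
          (Real.exp (2 * n * (w - 1 + 1 / w) - w ^ 2 / 2 - 2) /
            (2 * (w + 1) * (n.factorial : ℝ))) - 1| ≤
        C * (n : ℝ) ^ (-(1 / 10) : ℝ)) ∧
    (∀ k : ℕ, 3 ≤ k → ∃ C : ℝ, ∀ n : ℕ, 1 ≤ n → ∀ w : ℝ, 0 ≤ w → w * Real.exp w = n →
      |(orbitCount (wreathPowerK k Ω) (Fin k → Ω) n : ℝ) /
          ((Nat.bell n : ℝ) ^ k / ((k.factorial : ℝ) * (n.factorial : ℝ))) - 1| ≤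
        C * (n : ℝ) ^ (-(1 / 10) : ℝ) ∧
      |(orbitCount (wreathPowerK k Ω) (Fin k → Ω) n : ℝ) /
          ((Real.exp (n * (w - 1 + 1 / w) - 1) / Real.sqrt (w + 1)) ^ k /
            ((k.factorial : ℝ) * (n.factorial : ℝ))) - 1| ≤
        C * (n : ℝ) ^ (-(1 / 10) : ℝ)) ∧
    (∀ q : ℕ, 2 ≤ q → ∃ C : ℝ, ∀ n : ℕ, 1 ≤ n → ∀ w : ℝ, 0 ≤ w → w * Real.exp w = q * n →
      |(orbitCount (Equiv.Perm Ω) (Set.powersetCard Ω q) n : ℝ) /
          ((Nat.bell (q * n) : ℝ) / ((q.factorial : ℝ) ^ n * (n.factorial : ℝ)) *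
            Real.exp (-corr q w)) - 1| ≤
        C * (n : ℝ) ^ (-(1 / (5 * q)) : ℝ) ∧
      |(orbitCount (Equiv.Perm Ω) (Set.powersetCard Ω q) n : ℝ) /
          (Real.exp (q * n * (w - 1 + 1 / w) - corr q w - 1) /
            ((q.factorial : ℝ) ^ n * (n.factorial : ℝ) * Real.sqrt (w + 1))) - 1| ≤
        C * (n : ℝ) ^ (-(1 / (5 * q)) : ℝ)) := by
  refine ⟨?_, ?_, ?_, ?_⟩
  · intro x hx
    obtain ⟨w, hw0, hw⟩ := Pool.Agent.H244R2.exists_lambert hx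
    refine ⟨w, ⟨hw0, hw⟩, ?_⟩
    rintro v ⟨hv0, hv⟩
    rw [Pool.Agent.Y349.OC.lamW_unique hv0 hv, Pool.Agent.Y349.OC.lamW_unique hw0 hw]
  · obtain ⟨K₁, -, h1⟩ := Pool.Agent.Y349.OC.wreath_bell (Ω := Ω)
    obtain ⟨K₂, -, h2⟩ := Pool.Agent.Y349.OC.wreath_elem (Ω := Ω)
    obtain ⟨C₁, hC₁⟩ := Pool.Agent.Y349.OC.all_of_eventually h1
    obtain ⟨C₂, hC₂⟩ := Pool.Agent.Y349.OC.all_of_eventually h2
    refine ⟨max C₁ C₂, fun n hn w hw0 hw => ?_⟩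
    have hpos : 0 ≤ (n : ℝ) ^ (-(1 / 10) : ℝ) := by positivity
    have hwl := Pool.Agent.Y349.OC.lamW_unique hw0 hw
    have h3 := hC₁ n hn
    have h4 := hC₂ n hn
    rw [← hwl] at h3 h4
    exact ⟨h3.trans (mul_le_mul_of_nonneg_right (le_max_left _ _) hpos),
      h4.trans (mul_le_mul_of_nonneg_right (le_max_right _ _) hpos)⟩
  · intro k hk
    obtain ⟨K₁, -, h1⟩ := Pool.Agent.KS6_8.HG.pow_bell hk Ω
    obtain ⟨K₂, -, h2⟩ := Pool.Agent.KS6_8.HG.pow_elem hk Ω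
    obtain ⟨C₁, hC₁⟩ := Pool.Agent.Y349.OC.all_of_eventually h1
    obtain ⟨C₂, hC₂⟩ := Pool.Agent.Y349.OC.all_of_eventually h2
    refine ⟨max C₁ C₂, fun n hn w hw0 hw => ?_⟩
    have hpos : 0 ≤ (n : ℝ) ^ (-(1 / 10) : ℝ) := by positivity
    have hwl := Pool.Agent.Y349.OC.lamW_unique hw0 hw
    have h3 := hC₁ n hn
    have h4 := hC₂ n hn
    rw [← hwl] at h4
    exact ⟨h3.trans (mul_le_mul_of_nonneg_right (le_max_left _ _) hpos),
      h4.trans (mul_le_mul_of_nonneg_right (le_max_right _ _) hpos)⟩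
  · intro q hq
    obtain ⟨K₁, -, h1⟩ := Pool.Agent.KS6_8.HG.all_bell hq (Ω := Ω)
    obtain ⟨K₂, -, h2⟩ := Pool.Agent.KS6_8.HG.elem_of_bell hq
      (Pool.Agent.KS6_8.HG.all_bell hq (Ω := Ω))
    obtain ⟨C₁, hC₁⟩ := Pool.Agent.KS6_8.HG.all_of_eventually' h1
    obtain ⟨C₂, hC₂⟩ := Pool.Agent.KS6_8.HG.all_of_eventually' h2
    refine ⟨max C₁ C₂, fun n hn w hw0 hw => ?_⟩
    have hpos : 0 ≤ (n : ℝ) ^ (-(1 / (5 * q)) : ℝ) := by positivity
    have hw' : w * Real.exp w = ((q * n : ℕ) : ℝ) := by push_cast; exact hw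
    have hwl := Pool.Agent.Y349.OC.lamW_unique hw0 hw'
    have h3 := hC₁ n hn
    have h4 := hC₂ n hn
    rw [← hwl] at h3 h4
    have e1 : Pool.Agent.KS6_8.HG.mainB q n w =
        (Nat.bell (q * n) : ℝ) / ((q.factorial : ℝ) ^ n * (n.factorial : ℝ)) *
            Real.exp (-corr q w) := by
      unfold Pool.Agent.KS6_8.HG.mainB Pool.Agent.KS6_8.HG.extra corr
      congr 2
      ring
    have e2 : Pool.Agent.KS6_8.HG.mainE q n w =
        Real.exp (q * n * (w - 1 + 1 / w) - corr q w - 1) /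
            ((q.factorial : ℝ) ^ n * (n.factorial : ℝ) * Real.sqrt (w + 1)) := by
      unfold Pool.Agent.KS6_8.HG.mainE Pool.Agent.KS6_8.HG.extra corr
      congr 2
      ring
    rw [e1] at h3
    rw [e2] at h4
    exact ⟨h3.trans (mul_le_mul_of_nonneg_right (le_max_left _ _) hpos),
      h4.trans (mul_le_mul_of_nonneg_right (le_max_right _ _) hpos)⟩

end Pool.Agent.Results.MP_cfcaf3_co.AllDegrees
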